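import Pool.Agent.Helper16.SD.GoalsS

/-!
# Project SD, goal ST_HALF: the plus part is half of a stable subspace

`D = ∑ t_j (ρ(g_j) - ρ(c g_j c⁻¹))` is a diagonal operator with nonzero entries which anticommutes
with `ρ(c)`.
-/

set_option autoImplicit false

namespace Pool.Agent.Helper44.SD.ST_HALF

open Module Pool.Agent.Helper16.SD

theorem coc_one {E I Γ : Type} [Field E] [Group Γ] [MulAction Γ I] {m : Γ → I → Eˣ}
    (h : IsCoc m) (i : I) : m 1 i = 1 := by
  have h1 := h 1 1 i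
  rw [one_smul, mul_one] at h1
  exact (left_eq_mul.mp h1)

theorem rho_mul {E I Γ : Type} [Field E] [Group Γ] [MulAction Γ I] {m : Γ → I → Eˣ}
    (h : IsCoc m) (γ δ : Γ) (v : I → E) : rho m (γ * δ) v = rho m γ (rho m δ v) := by
  funext i
  change ((m (γ * δ) ((γ * δ)⁻¹ • i) : Eˣ) : E) * v ((γ * δ)⁻¹ • i) =
    (m γ (γ⁻¹ • i) : Eˣ) * ((m δ (δ⁻¹ • (γ⁻¹ • i)) : Eˣ) * v (δ⁻¹ • (γ⁻¹ • i)))
  rw [h, mul_inv_rev, mul_smul, smul_inv_smul, Units.val_mul, mul_assoc]

theorem rho_one {E I Γ : Type} [Field E] [Group Γ] [MulAction Γ I] {m : Γ → I → Eˣ}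
    (h : IsCoc m) (v : I → E) : rho m 1 v = v := by
  funext i
  change ((m 1 ((1 : Γ)⁻¹ • i) : Eˣ) : E) * v ((1 : Γ)⁻¹ • i) = v i
  rw [coc_one h, inv_one, one_smul, Units.val_one, one_mul]

theorem rho_diag {E I Γ : Type} [Field E] [Group Γ] [MulAction Γ I] {m : Γ → I → Eˣ}
    (g : Γ) (hg : ∀ j : I, g • j = j) (v : I → E) (i : I) :
    rho m g v i = (m g i : Eˣ) * v i := by
  have h1 : g⁻¹ • i = i := by
    rw [inv_smul_eq_iff, hg]
  change ((m g (g⁻¹ • i) : Eˣ) : E) * v (g⁻¹ • i) = _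
  rw [h1]

/-- Finitely many linear forms in general position. -/
theorem exists_t {E I : Type} [Field E] [CharZero E] [Fintype I] (a : I → I → E)
    (ha : ∀ i, a i i ≠ 0) : ∃ t : I → E, ∀ i, ∑ j, t j * a j i ≠ 0 := by
  classical
  let f : I → Module.Dual E (I → E) := fun i ↦ ∑ j, a j i • LinearMap.proj j
  have hf : ∀ i t, f i t = ∑ j, t j * a j i := by
    intro i t
    simp [f, LinearMap.sum_apply, mul_comm]
  have hinf : Infinite E := CharZero.infinite E
  obtain ⟨t, ht⟩ := Module.Dual.exists_forall_ne_zero_of_forall_exists f (fun i ↦ by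
    refine ⟨Pi.single i 1, ?_⟩
    rw [hf]
    simpa [Pi.single_apply] using ha i)
  refine ⟨t, fun i ↦ ?_⟩
  rw [← hf]
  exact ht i

/-- An injective operator `D` which anticommutes with an involution `C` halves every stable subspace. -/
theorem half {E W : Type} [Field E] [CharZero E] [AddCommGroup W] [Module E W]
    [FiniteDimensional E W] (C D : W →ₗ[E] W) (hC : ∀ v, C (C v) = v)
    (hCD : ∀ v, C (D v) = - D (C v)) (hD : Function.Injective D) (V : Submodule E W)
    (hVC : ∀ v ∈ V, C v ∈ V) (hVD : ∀ v ∈ V, D v ∈ V) :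
    finrank E V = 2 * finrank E (V ⊓ fixL C : Submodule E W) := by
  have hp : ∀ v, v ∈ fixL C ↔ C v = v := by
    intro v
    change v ∈ LinearMap.ker (C - LinearMap.id) ↔ _
    rw [LinearMap.mem_ker, LinearMap.sub_apply, LinearMap.id_apply, sub_eq_zero]
  let N : Submodule E W := LinearMap.ker (C + LinearMap.id)
  have hn : ∀ v, v ∈ N ↔ C v = -v := by
    intro v
    change v ∈ LinearMap.ker (C + LinearMap.id) ↔ _
    rw [LinearMap.mem_ker, LinearMap.add_apply, LinearMap.id_apply, add_eq_zero_iff_eq_neg]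
  have h2 : (2 : E) ≠ 0 := two_ne_zero
  have hsup : (V ⊓ fixL C) ⊔ (V ⊓ N) = V := by
    apply le_antisymm
    · exact sup_le inf_le_left inf_le_left
    · intro v hv
      have e1 : v = (2 : E)⁻¹ • (v + C v) + (2 : E)⁻¹ • (v - C v) := by
        rw [← smul_add]
        have : v + C v + (v - C v) = (2 : E) • v := by
          rw [two_smul]; abel
        rw [this, smul_smul, inv_mul_cancel₀ h2, one_smul]
      rw [e1]
      refine Submodule.add_mem_sup ⟨?_, ?_⟩ ⟨?_, ?_⟩
      · exact V.smul_mem _ (V.add_mem hv (hVC v hv))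
      · refine (fixL C).smul_mem _ ?_
        rw [hp, map_add, hC, add_comm]
      · exact V.smul_mem _ (V.sub_mem hv (hVC v hv))
      · refine N.smul_mem _ ?_
        rw [hn, map_sub, hC]
        abel
  have hinf : (V ⊓ fixL C) ⊓ (V ⊓ N) = ⊥ := by
    rw [eq_bot_iff]
    rintro v ⟨⟨-, h1⟩, ⟨-, h3⟩⟩
    rw [SetLike.mem_coe, hp] at h1
    rw [SetLike.mem_coe, hn, h1] at h3
    have h4 : (2 : E) • v = 0 := by
      rw [two_smul]
      nth_rewrite 1 [h3]
      simp
    rw [Submodule.mem_bot]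
    exact (smul_eq_zero.mp h4).resolve_left h2
  have hsum := Submodule.finrank_sup_add_finrank_inf_eq (V ⊓ fixL C) (V ⊓ N)
  rw [hsup, hinf, finrank_bot, add_zero] at hsum
  have hle : ∀ A B : Submodule E W, (∀ v ∈ A, D v ∈ B) → finrank E A ≤ finrank E B := by
    intro A B h
    rw [(Submodule.equivMapOfInjective D hD A).finrank_eq]
    apply Submodule.finrank_mono
    rintro _ ⟨v, hv, rfl⟩
    exact h v hv
  have h1 := hle (V ⊓ fixL C) (V ⊓ N) (by
    rintro v ⟨hv, h⟩
    rw [SetLike.mem_coe, hp] at h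
    refine ⟨hVD v hv, ?_⟩
    rw [SetLike.mem_coe, hn, hCD, h])
  have h3 := hle (V ⊓ N) (V ⊓ fixL C) (by
    rintro v ⟨hv, h⟩
    rw [SetLike.mem_coe, hn] at h
    refine ⟨hVD v hv, ?_⟩
    rw [SetLike.mem_coe, hp, hCD, h, map_neg, neg_neg])
  omega

/-- The plus part is half of a stable subspace of a monomial representation. -/
theorem t : Pool.Agent.Helper16.SD.ST_HALF := by
  intro E I Γ _ _ _ _ _ _ m hm c hc hex V hV
  have hcinv : c⁻¹ = c := inv_eq_of_mul_eq_one_left hc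
  choose g hg1 hg2 using hex
  have hg3 : ∀ i, ∀ j : I, (c * g i * c⁻¹) • j = j := by
    intro i j
    rw [mul_smul, mul_smul, hg1, smul_inv_smul]
  obtain ⟨t, ht⟩ := exists_t (fun j i ↦ ((m (g j) i : Eˣ) : E) - (m (c * g j * c⁻¹) i : Eˣ))
    (fun i h ↦ hg2 i (Units.ext (sub_eq_zero.mp h)))
  let D : (I → E) →ₗ[E] (I → E) := ∑ j, t j • (rho m (g j) - rho m (c * g j * c⁻¹))
  have hDv : ∀ v, D v = ∑ j, t j • (rho m (g j) v - rho m (c * g j * c⁻¹) v) := by
    intro v
    simp [D, LinearMap.sum_apply]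
  have hDi : ∀ v i, D v i =
      (∑ j, t j * (((m (g j) i : Eˣ) : E) - (m (c * g j * c⁻¹) i : Eˣ))) * v i := by
    intro v i
    rw [hDv, Finset.sum_apply, Finset.sum_mul]
    refine Finset.sum_congr rfl fun j _ ↦ ?_
    rw [Pi.smul_apply, Pi.sub_apply, rho_diag _ (hg1 j), rho_diag _ (hg3 j), smul_eq_mul]
    ring
  refine half (rho m c) D ?_ ?_ ?_ V (hV c) ?_
  · intro v
    rw [← rho_mul hm, hc, rho_one hm]
  · intro v
    rw [hDv, hDv, map_sum, ← Finset.sum_neg_distrib]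
    refine Finset.sum_congr rfl fun j _ ↦ ?_
    rw [map_smul, map_sub, ← smul_neg, neg_sub, ← rho_mul hm, ← rho_mul hm, ← rho_mul hm,
      ← rho_mul hm]
    have e1 : c * (c * g j * c⁻¹) = g j * c := by
      rw [hcinv, ← mul_assoc, ← mul_assoc, hc, one_mul]
    have e2 : c * g j * c⁻¹ * c = c * g j := by
      rw [mul_assoc, inv_mul_cancel, mul_one]
    rw [e1, e2]
  · intro v w h
    funext i
    have h1 := congrFun h i
    rw [hDi, hDi] at h1
    exact mul_left_cancel₀ (ht i) h1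
  · intro v hv
    rw [hDv]
    exact V.sum_mem fun j _ ↦ V.smul_mem _ (V.sub_mem (hV _ v hv) (hV _ v hv))

end Pool.Agent.Helper44.SD.ST_HALF
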